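import Pool.Agent.Helper65.KPZ.St

set_option autoImplicit false

namespace Pool.Agent.Helper60.KPZ

open Pool.Agent.Helper65.KPZ

theorem zex_a (N : ℕ) (hN : 0 < N) (h w : ℕ → ℝ) (M c : ℕ) (a₀ a₁ b₀ b₁ B : ℝ) (hM : 0 < M)
    (H : ∀ k : ℕ, 0 < k →
      |h (M * k) - (a₀ * k ^ N + a₁ * k ^ (N - 1))| * k ^ 2 ≤ B * k ^ N ∧
      |(w (M * k) + c * k * h (M * k)) - (b₀ * k ^ (N + 1) + b₁ * k ^ N)| * k ^ 2 ≤
        B * k ^ (N + 1)) :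
      ∃ B' : ℝ, ∀ k : ℕ, 0 < k → M ∣ k →
        |h k - (a₀ / M ^ N * k ^ N + a₁ / M ^ (N - 1) * k ^ (N - 1))| * k ^ 2 ≤ B' * k ^ N ∧
        |w k - ((b₀ - c * a₀) / M ^ (N + 1) * k ^ (N + 1) + (b₁ - c * a₁) / M ^ N * k ^ N)| *
          k ^ 2 ≤ B' * k ^ (N + 1) := by
  refine ⟨|B| * (1 + c) * M ^ 2, ?_⟩
  rintro k hk ⟨j, rfl⟩
  have hj : 0 < j := Nat.pos_of_mul_pos_left hk |> fun h => by
    rcases Nat.eq_zero_or_pos j with h0 | h0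
    · subst h0; simp at hk
    · exact h0
  obtain ⟨h1, h2⟩ := H j hj
  have hMr : (1 : ℝ) ≤ M := by exact_mod_cast hM
  have hM0 : (M : ℝ) ≠ 0 := by positivity
  have hjr : (0 : ℝ) < j := by exact_mod_cast hj
  have hc : (0 : ℝ) ≤ c := Nat.cast_nonneg c
  have hBB : B ≤ |B| := le_abs_self B
  have hB0 : 0 ≤ |B| := abs_nonneg B
  have hMN : (1 : ℝ) ≤ (M : ℝ) ^ N := one_le_pow₀ hMr
  have hMN1 : (1 : ℝ) ≤ (M : ℝ) ^ (N + 1) := one_le_pow₀ hMr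
  have hjj : (j : ℝ) * (j : ℝ) ^ (N - 1) = (j : ℝ) ^ N := by
    rw [← pow_succ']; congr 1; omega
  push_cast
  have e1 : a₀ / (M : ℝ) ^ N * ((M : ℝ) * j) ^ N + a₁ / (M : ℝ) ^ (N - 1) * ((M : ℝ) * j) ^ (N - 1)
      = a₀ * j ^ N + a₁ * j ^ (N - 1) := by
    rw [mul_pow, mul_pow]; field_simp
  have e2 : (b₀ - c * a₀) / (M : ℝ) ^ (N + 1) * ((M : ℝ) * j) ^ (N + 1) +
      (b₁ - c * a₁) / (M : ℝ) ^ N * ((M : ℝ) * j) ^ N
      = (b₀ - c * a₀) * j ^ (N + 1) + (b₁ - c * a₁) * j ^ N := by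
    rw [mul_pow, mul_pow]; field_simp
  rw [e1, e2]
  constructor
  · calc |h (M * j) - (a₀ * j ^ N + a₁ * j ^ (N - 1))| * ((M : ℝ) * j) ^ 2
        = (|h (M * j) - (a₀ * j ^ N + a₁ * j ^ (N - 1))| * (j : ℝ) ^ 2) * (M : ℝ) ^ 2 := by ring
      _ ≤ (B * j ^ N) * (M : ℝ) ^ 2 := by gcongr
      _ ≤ (|B| * j ^ N) * (M : ℝ) ^ 2 := by gcongr
      _ = |B| * 1 * (M : ℝ) ^ 2 * (1 * j ^ N) := by ring
      _ ≤ |B| * (1 + c) * (M : ℝ) ^ 2 * ((M : ℝ) ^ N * j ^ N) := by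
          gcongr
          linarith
      _ = |B| * (1 + c) * (M : ℝ) ^ 2 * ((M : ℝ) * j) ^ N := by rw [mul_pow]
  · have e3 : w (M * j) - ((b₀ - c * a₀) * (j : ℝ) ^ (N + 1) + (b₁ - c * a₁) * j ^ N)
        = ((w (M * j) + c * j * h (M * j)) - (b₀ * j ^ (N + 1) + b₁ * j ^ N))
          - c * j * (h (M * j) - (a₀ * j ^ N + a₁ * j ^ (N - 1))) := by
      rw [pow_succ]
      linear_combination (-(c * a₁ : ℝ)) * hjj
    have e4 : |w (M * j) - ((b₀ - c * a₀) * (j : ℝ) ^ (N + 1) + (b₁ - c * a₁) * j ^ N)|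
        ≤ |(w (M * j) + c * j * h (M * j)) - (b₀ * j ^ (N + 1) + b₁ * j ^ N)|
          + c * j * |h (M * j) - (a₀ * j ^ N + a₁ * j ^ (N - 1))| := by
      rw [e3]
      refine (abs_sub _ _).trans ?_
      rw [abs_mul (c * j : ℝ), abs_of_nonneg (by positivity : (0 : ℝ) ≤ c * j)]
    calc |w (M * j) - ((b₀ - c * a₀) * (j : ℝ) ^ (N + 1) + (b₁ - c * a₁) * j ^ N)| *
          ((M : ℝ) * j) ^ 2
        ≤ (|(w (M * j) + c * j * h (M * j)) - (b₀ * j ^ (N + 1) + b₁ * j ^ N)|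
          + c * j * |h (M * j) - (a₀ * j ^ N + a₁ * j ^ (N - 1))|) * ((M : ℝ) * j) ^ 2 := by
          gcongr
      _ = (|(w (M * j) + c * j * h (M * j)) - (b₀ * j ^ (N + 1) + b₁ * j ^ N)| * (j : ℝ) ^ 2
          + c * j * (|h (M * j) - (a₀ * j ^ N + a₁ * j ^ (N - 1))| * (j : ℝ) ^ 2))
            * (M : ℝ) ^ 2 := by ring
      _ ≤ (B * j ^ (N + 1) + c * j * (B * j ^ N)) * (M : ℝ) ^ 2 := by gcongr
      _ = B * ((1 + c) * j ^ (N + 1) * (M : ℝ) ^ 2) := by ring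
      _ ≤ |B| * ((1 + c) * j ^ (N + 1) * (M : ℝ) ^ 2) := by gcongr
      _ = |B| * (1 + c) * (M : ℝ) ^ 2 * (1 * j ^ (N + 1)) := by ring
      _ ≤ |B| * (1 + c) * (M : ℝ) ^ 2 * ((M : ℝ) ^ (N + 1) * j ^ (N + 1)) := by gcongr
      _ = |B| * (1 + c) * (M : ℝ) ^ 2 * ((M : ℝ) * j) ^ (N + 1) := by rw [mul_pow]

theorem zex_b (N : ℕ) (hN : 0 < N) (h : ℕ → ℝ) (M m : ℕ) (a₀ a₁ a₀' a₁' B B' : ℝ)
    (hM : 0 < M) (hm : 0 < m)
    (H1 : ∀ k : ℕ, 0 < k → M ∣ k → |h k - (a₀ * k ^ N + a₁ * k ^ (N - 1))| * k ^ 2 ≤ B * k ^ N)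
    (H2 : ∀ k : ℕ, 0 < k → m ∣ k →
        |h k - (a₀' * k ^ N + a₁' * k ^ (N - 1))| * k ^ 2 ≤ B' * k ^ N) :
    a₀ = a₀' ∧ a₁ = a₁' := by
  have key : ∀ j : ℕ, 0 < j → |(a₀ - a₀') * ((m * M * j : ℕ) : ℝ) + (a₁ - a₁')| *
      ((m * M * j : ℕ) : ℝ) ≤ B + B' := by
    intro j hj
    have hk : 0 < m * M * j := by positivity
    have h1 := H1 (m * M * j) hk ⟨m * j, by ring⟩
    have h2 := H2 (m * M * j) hk ⟨M * j, by ring⟩
    generalize m * M * j = k at *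
    have hkr : (0 : ℝ) < k := by exact_mod_cast hk
    have hkk : (k : ℝ) * (k : ℝ) ^ (N - 1) = (k : ℝ) ^ N := by
      rw [← pow_succ']; congr 1; omega
    have h3 : |(a₀ - a₀') * (k : ℝ) ^ N + (a₁ - a₁') * k ^ (N - 1)| * (k : ℝ) ^ 2
        ≤ (B + B') * k ^ N := by
      have e : (a₀ - a₀') * (k : ℝ) ^ N + (a₁ - a₁') * k ^ (N - 1)
          = (h k - (a₀' * k ^ N + a₁' * k ^ (N - 1))) - (h k - (a₀ * k ^ N + a₁ * k ^ (N - 1))) := by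
        ring
      have h4 : |(a₀ - a₀') * (k : ℝ) ^ N + (a₁ - a₁') * k ^ (N - 1)| ≤
          |h k - (a₀' * k ^ N + a₁' * k ^ (N - 1))| + |h k - (a₀ * k ^ N + a₁ * k ^ (N - 1))| := by
        rw [e]; exact abs_sub _ _
      calc _ ≤ (|h k - (a₀' * k ^ N + a₁' * k ^ (N - 1))| +
            |h k - (a₀ * k ^ N + a₁ * k ^ (N - 1))|) * (k : ℝ) ^ 2 := by gcongr
        _ = |h k - (a₀' * k ^ N + a₁' * k ^ (N - 1))| * (k : ℝ) ^ 2 +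
            |h k - (a₀ * k ^ N + a₁ * k ^ (N - 1))| * (k : ℝ) ^ 2 := by ring
        _ ≤ _ := by linarith
    have e2 : (a₀ - a₀') * (k : ℝ) ^ N + (a₁ - a₁') * k ^ (N - 1)
        = ((a₀ - a₀') * k + (a₁ - a₁')) * k ^ (N - 1) := by
      rw [← hkk]; ring
    rw [e2, abs_mul, abs_of_nonneg (by positivity : (0 : ℝ) ≤ (k : ℝ) ^ (N - 1))] at h3
    have e3 : |(a₀ - a₀') * (k : ℝ) + (a₁ - a₁')| * (k : ℝ) ^ (N - 1) * (k : ℝ) ^ 2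
        = (|(a₀ - a₀') * (k : ℝ) + (a₁ - a₁')| * k) * (k : ℝ) ^ N := by
      rw [← hkk]; ring
    rw [e3] at h3
    exact le_of_mul_le_mul_right h3 (by positivity)
  have hk1 : ∀ j : ℕ, (j : ℝ) ≤ ((m * M * j : ℕ) : ℝ) := by
    intro j
    exact_mod_cast Nat.le_mul_of_pos_left j (Nat.mul_pos hm hM)
  have hC : 0 ≤ B + B' := by
    refine le_trans ?_ (key 1 one_pos)
    positivity
  have h0 : a₀ - a₀' = 0 := by
    by_contra hne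
    have hp : 0 < |a₀ - a₀'| := abs_pos.mpr hne
    obtain ⟨j, hj⟩ := exists_nat_gt ((|a₁ - a₁'| + (B + B')) / |a₀ - a₀'|)
    have hj' : (|a₁ - a₁'| + (B + B')) / |a₀ - a₀'| < ((j + 1 : ℕ) : ℝ) := by
      push_cast; linarith
    have hk := key (j + 1) (Nat.succ_pos j)
    have hkj := hk1 (j + 1)
    have hge : (1 : ℝ) ≤ ((m * M * (j + 1) : ℕ) : ℝ) := by
      refine le_trans ?_ hkj
      push_cast
      have : (0 : ℝ) ≤ j := Nat.cast_nonneg j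
      linarith
    generalize ((m * M * (j + 1) : ℕ) : ℝ) = k at *
    have h5 : |(a₀ - a₀') * k + (a₁ - a₁')| ≤ B + B' := by
      refine le_trans ?_ hk
      nlinarith [abs_nonneg ((a₀ - a₀') * k + (a₁ - a₁'))]
    have h6 : |(a₀ - a₀') * k| ≤ |(a₀ - a₀') * k + (a₁ - a₁')| + |a₁ - a₁'| := by
      have := abs_sub ((a₀ - a₀') * k + (a₁ - a₁')) (a₁ - a₁')
      simpa using this
    rw [abs_mul, abs_of_nonneg (by linarith : (0 : ℝ) ≤ k)] at h6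
    rw [div_lt_iff₀ hp] at hj'
    nlinarith
  have h1 : a₁ - a₁' = 0 := by
    by_contra hne
    have hp : 0 < |a₁ - a₁'| := abs_pos.mpr hne
    obtain ⟨j, hj⟩ := exists_nat_gt ((B + B') / |a₁ - a₁'|)
    have hj' : (B + B') / |a₁ - a₁'| < ((j + 1 : ℕ) : ℝ) := by
      push_cast; linarith
    have hk := key (j + 1) (Nat.succ_pos j)
    have hkj := hk1 (j + 1)
    rw [h0, zero_mul, zero_add] at hk
    rw [div_lt_iff₀ hp] at hj'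
    generalize ((m * M * (j + 1) : ℕ) : ℝ) = k at *
    nlinarith
  exact ⟨by linarith, by linarith⟩

theorem hZEX : StZEX := by
  intro N hN h w
  refine ⟨fun M c a₀ a₁ b₀ b₁ B hM H => zex_a N hN h w M c a₀ a₁ b₀ b₁ B hM H,
    fun M m a₀ a₁ a₀' a₁' B B' hM hm H1 H2 => zex_b N hN h M m a₀ a₁ a₀' a₁' B B' hM hm H1 H2⟩

end Pool.Agent.Helper60.KPZ
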